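import Pool.Agent.R887.DivC

/-!
The Kodaira dimension and the numerical dimension of adjoint divisors on varieties with multi-valued
maps.
-/

set_option autoImplicit false

open FF Pool.Agent.W602.GT Pool.Agent.Y172 Pool.Agent.R887

/-- Let `X` be a normal complex projective variety of dimension `n ≥ 1`, with generic point `y`, for
instance a projective manifold, and `K_X + Δ` a `ℚ`-divisor on `X`. The coefficients of `Δ` are
arbitrary, so that `K_X + Δ` can be any `ℚ`-Cartier divisor, for instance `L` or `K_X + t L` for a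
nef divisor `L`.

(1) Let `j ≤ n`, `X'` any normal projective variety of dimension `n`, with generic point `y'`,
`K_X' + Δ'` a `ℚ`-divisor on `X'`, and `X' ← X'' → X` a multi-valued map: a variety `X''` with a
generically finite rational map `p` to `X'` and a dominant rational map `f` to `X`, such that, over
the prime divisors of `X'`, `f^* (K_X + Δ)` is at most `p^* (K_X' + Δ')` up to `ℚ`-linear equivalence
on `X''`. If `M H' - (K_X' + Δ')` is pseudo-effective, `H'` a hyperplane section of `X'`, and the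
intersection number `(f ^* H) ^ (n - j) · (p ^* H') ^ j` is at most `c deg f`, then the positive
product `⟨(K_X + Δ) ^ j⟩ · H ^ (n - j)` is at most `c M ^ j`.

(2) Let `k < n`. Suppose that for all `ε > 0` there are such `X'`, `Δ'`, `X''`, `p`, `f`, `M` and `c`
with `j = k + 1` and `c M ^ (k + 1) ≤ ε`. If the Kodaira dimension of `K_X + Δ` is at least `k`, then
the Kodaira dimension and the numerical dimension of `K_X + Δ` are both equal to `k`.

(3) All `(X', Δ')` have a finite `M`, so that in (2) one can take fixed `X'`, `Δ'` and `c → 0`. -/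
theorem Pool.Agent.Results.MP_1149f4_ag.AdjointSources.result
    {K : Type} [Field K] [Algebra ℂ K] {N n : ℕ} {y : Fin (N + 1) → K} (hy : NormalModel y)
    (hn : Algebra.trdeg ℂ K = n) (hn0 : 0 < n) {Δ : Place ℂ K → ℚ} :
    (∀ j ≤ n, ∀ (K' L : Type) [Field K'] [Algebra ℂ K'] [Field L] [Algebra ℂ L] (N' : ℕ)
      (y' : Fin (N' + 1) → K') (Δ' : Place ℂ K' → ℚ) (φ : K →ₐ[ℂ] L) (ψ : K' →ₐ[ℂ] L) (M c : ℝ),
      NormalModel y' → Algebra.trdeg ℂ K' = n → ThresholdLe y' n (fun P => (Δ' P : ℝ)) M →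
      FiniteDimensional ψ.fieldRange L → AdjointPullBackLe φ ψ y n Δ y' Δ' →
      MultiDegreeLe φ ψ y y' (n - j) j c → PositiveProductLe y n Δ j (c * M ^ j)) ∧
    (∀ k < n, (∀ ε : ℝ, 0 < ε → ∃ (K' L : Type) (_ : Field K') (_ : Algebra ℂ K') (_ : Field L)
        (_ : Algebra ℂ L) (N' : ℕ) (y' : Fin (N' + 1) → K') (Δ' : Place ℂ K' → ℚ)
        (φ : K →ₐ[ℂ] L) (ψ : K' →ₐ[ℂ] L) (M c : ℝ), NormalModel y' ∧ Algebra.trdeg ℂ K' = n ∧
        ThresholdLe y' n (fun P => (Δ' P : ℝ)) M ∧ FiniteDimensional ψ.fieldRange L ∧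
        AdjointPullBackLe φ ψ y n Δ y' Δ' ∧ MultiDegreeLe φ ψ y y' (n - (k + 1)) (k + 1) c ∧
        c * M ^ (k + 1) ≤ ε) →
      LogKodairaGe y n Δ k → LogKodairaEq y n Δ k ∧ LogNumDimEq y n Δ k) ∧
    ∀ {K' : Type} [Field K'] [Algebra ℂ K'] {N' : ℕ} {y' : Fin (N' + 1) → K'},
      NormalModel y' → Algebra.trdeg ℂ K' = n → ∀ {Δ' : Place ℂ K' → ℝ},
      {P | IsPrimeDivisor y' P ∧ Δ' P ≠ 0}.Finite → ∃ M : ℝ, 0 ≤ M ∧ ThresholdLe y' n Δ' M := by
  have h1 : ∀ j ≤ n, ∀ (K' L : Type) [Field K'] [Algebra ℂ K'] [Field L] [Algebra ℂ L] (N' : ℕ)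
      (y' : Fin (N' + 1) → K') (Δ' : Place ℂ K' → ℚ) (φ : K →ₐ[ℂ] L) (ψ : K' →ₐ[ℂ] L) (M c : ℝ),
      NormalModel y' → Algebra.trdeg ℂ K' = n → ThresholdLe y' n (fun P => (Δ' P : ℝ)) M →
      FiniteDimensional ψ.fieldRange L → AdjointPullBackLe φ ψ y n Δ y' Δ' →
      MultiDegreeLe φ ψ y y' (n - j) j c → PositiveProductLe y n Δ j (c * M ^ j) := by
    intro j hj K' L _ _ _ _ N' y' Δ' φ ψ M c hy' hn' hM hψ hpull hc
    exact adjoint_degree_le hy' hn' hn0 hM hy hn φ ψ hψ hpull hj hc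
  refine ⟨h1, fun k hk h hkod => ?_, fun hy' hn' Δ' hΔ' => exists_threshold hy' hn' hΔ'⟩
  have hnum : NumDimLt y n Δ (k + 1) := by
    refine PositiveProductLe.numDimLt (PositiveProductLe.of_forall fun ε hε => ?_)
    obtain ⟨K', L, _, _, _, _, N', y', Δ', φ, ψ, M, c, hy', hn', hM, hψ, hpull, hc, hcε⟩ := h ε hε
    exact ⟨_, by linarith, h1 (k + 1) hk K' L N' y' Δ' φ ψ M c hy' hn' hM hψ hpull hc⟩
  refine ⟨⟨hkod, ?_⟩, hnum, fun h0 => ?_⟩
  · rintro ⟨m, hm, ω, E, hω, hω0, hind⟩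
    exact kappa_lt hy hn hk hnum hm hω hω0 hind
  · obtain ⟨m, hm, ω, E, hω, hω0, hind⟩ := hkod
    exact kappa_lt hy hn hk.le h0 hm hω hω0 hind
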