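import Pool.Agent.R882.HTM

/-!
# Generalised abundance for the images of towers of nondegenerate complete intersections

A tower (`Tower`, `Pool/Agent/R882/HT.lean`) is a sequence of generically finite maps
`V 0 ⇢ V 1 ⇢ ... ⇢ V k` of varieties of dimension `n ≥ 1`, where `V k` is any uniruled variety and
each `V i`, `i < k`, is a component of the set of common zeros in a torus `(ℂ^*) ^ (n + q)` of a
system `f` of Laurent polynomials which is nondegenerate in the sense of Khovanskii, with arbitrary
Newton polytopes, and `V (i + 1)` is birational to the image of `V i` under monomials
`t l = x ^ (w l)`, where `ℂ(V i) = ℂ(V (i + 1))(y)` for a monomial `y = x ^ v`. (Typical towers are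
given by triangular systems `f 1 (t, y 1) = 0`, `f 2 (t, y 1, y 2) = 0`, ...,
`f k (t, y 1, ..., y k) = 0`; then `V k` is the torus.) Let `b i` be the degree of `V i` over
`V (i + 1)`. It is assumed that there are columns for `s i = s / (b 0 ⋯ b (i - 1))` in the Fine
interior of the Newton polytopes of `V i`: for each divisor `c < b i` of `b i` an `M` with
`s i ≤ c (M + 1)` such that the `u + j v` and the `u + j v + M w l` are in the Fine interior for all
`j < c`. (If `b i` is a prime number: `u` and the `u + (s i - 1) w l` are in the Fine interior.)

Let `V 0 ⇢ W` be any dominant rational map of degree `r`; nothing is assumed about the map (it need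
not be a quotient by a group, it may be ramified arbitrarily and has no relation to the tower) or about
`W`. The theorem: if there are columns for `s = r` then these are equivalent for the smooth projective
models of `W`: `p_g(W) = 0`; `κ(W) = -∞`; `K_W` is not pseudo-effective; `W` is uniruled. If there are
columns for `s = 2 r` then they are also equivalent to: `K_W` is not big. So in the second
case the question has a positive answer for all these `W`: if `K_W` is pseudo-effective then it is
big, and if `N` is a nef line bundle such that `m N - K_W` is nef then `m N` is the sum of a nef and a
big divisor, so `N` is nef and big, and `N` is semiample by the base point free theorem (this last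
standard step is not formalised here).

Proof: if `W` has geometric genus zero and `V i ⇢ W` is a rational map then it factors through
`V i ⇢ V (i + 1)`, because the traces to `W` of the forms `A(t) x ^ u y ^ j Res`, where `Res` is the
residue form on `V i` and `A` has degree at most `M`, are zero; and if `W` is not of general type then
it factors because these traces do not separate the general points of `W`. So `W` is dominated by
`V k`, and it is uniruled.

`K` and `L` are the function fields of `V 0` and `W`. `KodGe ℂ L n ∅ 0` says that `κ(W) ≥ 0`, `Psef` that
`K_W` is pseudo-effective, `GeneralType` that `K_W` is big (`Pool/Agent/W602/GT`), `IsUniruled` that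
`W` is uniruled (`Pool/Agent/W619/PQ/Defs.lean`).
-/

set_option autoImplicit false
set_option linter.overlappingInstances false

open FF Module Pool.Agent.W602.GT
open Pool.Agent.W619.PQ (IsUniruled)
open Pool.Agent.R882.HT (Tower GenusZero)

namespace Pool.Agent.Results.MP_1149f4_ag.ImagesOfTowers

/-- **Images of towers.** Let `K` be the function field of the first variety `V` of a tower of
varieties of dimension `n ≥ 1` over a uniruled variety, and let `V ⇢ W` be a dominant rational map of
finite degree `r`, `L` the function field of `W`. If there are columns for `r` then `p_g(W) = 0`,
`κ(W) = -∞`, `K_W` not pseudo-effective, `W` uniruled are equivalent. If there are columns for `2 r`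
then these conditions are also equivalent to: `K_W` is not big. -/
theorem result {n : ℕ} (hn : 1 ≤ n) {K : Type} [Field K] [Algebra ℂ K]
    [Algebra.EssFiniteType ℂ K] (hK : Algebra.trdeg ℂ K = (n : ℕ))
    (L : Type) [Field L] [Algebra ℂ L] [Algebra L K] [IsScalarTower ℂ L K]
    [FiniteDimensional L K] :
    (Tower n (fun E _ _ => IsUniruled ℂ E n) K (Module.finrank L K) →
      [GenusZero L n, ¬ KodGe ℂ L n (fun _ => False) 0, ¬ Psef ℂ L n (fun _ => False),
        IsUniruled ℂ L n].TFAE) ∧
    (Tower n (fun E _ _ => IsUniruled ℂ E n) K (2 * Module.finrank L K) →
      [GenusZero L n, ¬ KodGe ℂ L n (fun _ => False) 0, ¬ Psef ℂ L n (fun _ => False),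
        ¬ GeneralType ℂ L n, IsUniruled ℂ L n].TFAE) :=
  Pool.Agent.R882.HTM.tower_tfae hn hK L

end Pool.Agent.Results.MP_1149f4_ag.ImagesOfTowers
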