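import Pool.Agent.R885.W9

/-!
# Adjoint divisors on nondegenerate varieties with pseudoeffective canonical bundle

Let `f 1, ..., f q` and `h 1, ..., h p` be Laurent polynomials in `n + q` variables over `ℂ`,
`n ≥ 1`, and let `X₀` be an irreducible component, of dimension `n`, of the set of the common zeros
of the `f l` in the torus `(ℂ^*)^(n + q)`; its function field is `L`, the `x i` are the coordinates on
`X₀`. Suppose that the pair is nondegenerate along `X₀`: for every integral vector `v` and every
subset `V` of `1, ..., p` the logarithmic gradients of the initial parts `ini v (f l)`, `ini v (h j)`,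
`j ∈ V` (the sums of the terms on which the linear function `v` is minimal) are linearly independent
at the points of the initial degeneration of `X₀` in the direction `v` (the common zeros in the torus
of the `ini v g`, for all `g` which vanish on `X₀`) at which the `ini v (h j)`, `j ∈ V`, vanish. This
is true if the systems are nondegenerate in the sense of Khovanskii, so for generic coefficients.

Let `c j` be rational numbers in `[0, 1]`, the multiplicities of the divisors `h j = 0`, and let `A`
be a weight: a function on the nonzero integral vectors with values in `[0, 1]`, with bounded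
denominators, such that `1 - A` is subadditive and `A (g v) ≤ g A v`, for instance a constant, or `1` on
a convex cone and `0` outside. It gives the multiplicities `1 - A` along the divisors at infinity:
`bdry A c x h` is `1 - A v` for the divisors such that the vector `v` of the orders of the `x i` is not
zero, and otherwise `c j` along the components of `h j = 0`. There is no condition on the Newton
polytopes, on the weight and on the coefficients; all multiplicities may be `1`.

Let `Δ₀` be the boundary on `X₀` with these multiplicities. The pairs `(X, Δ)` of the theorem are the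
projective pairs which are commensurable with `(X₀, Δ₀)`: the function field `K` of `X` and the
function field `L` of `X₀` have a common finite extension `M`, to which `K_X + Δ` and `K_{X₀} + Δ₀` have
the same pull-back, and the log discrepancies of `(X, Δ)` are at least the ones given by `Δ₀`. For
instance `(X, Δ)` may be birational to `X₀` (`K = L = M`), a quotient of such a pair by a finite group
(`L = M`), or a cover of such a pair (`K = M`), which may be branched along the components of `Δ₀`, or
anywhere if the multiplicities of `Δ` become nonnegative. These pairs are log canonical.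

**Theorem.** Suppose that `K_X` is pseudoeffective, and let `D` be a `ℚ`-divisor on `X` which is
`ℚ`-linearly equivalent to a positive multiple of `K_X + Δ`. Then `κ (D) = ν (D) ≥ 0`.

If `L` is a nef line bundle and `m L - K_X` is `ℚ`-linearly equivalent to a nondegenerate boundary
`Δ`, which is nef, then this is the case for `D = L`. If `L` is nef then it is semiample, by the
theorem of Kawamata (1985) if `(X, Δ)` is klt, which is not formalized here.

The proof is by induction on `q`, for the systems of the class `VSys`. Such a system consists of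
nondegenerate equations, a weight `A`, a concave piecewise linear function `Ψ` (at the beginning
`∑ j, c j * min ⟨supp (h j), v⟩`) such that `A + Ψ - 1` is superadditive, and a formal product of
rational powers of rational functions, the orders of which bound the multiplicities from above and,
together with `A + Ψ`, the orders of the residue form from below. Let `ε ≥ 0` be the smallest number
such that the polytope of the `u` with
`⟨u, v⟩ ≥ A v + Ψ v - ε |v| + ∑ l, min ⟨supp (f l), v⟩` for all `v ≠ 0` is not empty (`exists_epsV`). If
`ε = 0`, or if the map to the torus of this polytope is not generically finite, the generic fibre of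
this map is treated by a finite set of tight vectors of the polytope, which generates them and is
closed under the sums along which `1 - A - Ψ` is additive (`exists_tightV`, `VSys.pos`, `VSys.neg`). In
the remaining case there is a circuit of `m + 1` tight vectors `s a`, `m ≥ 1`, along which exactly `m`
of the equations are not constant (`exc_arithV`); they can be solved rationally (`Exc.solve`), and
eliminated together with `m` variables (`VSys.elim`). The solutions are new factors of the formal
product, with the exponents `1 - A (s a) - Ψ (s a)`, which may be negative, and `A` and `Ψ` are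
transferred to the smaller torus (`Anew`, `Pnew`). Sections are pulled back to a Galois cover of `X` and
`X₀`; conversely, the elementary symmetric functions of the translates of sections on the cover are
sections of multiples of the divisor (`w0_desc`), and the traces of the products of a section with the
elements of a basis show that the numerical dimension of the cover is not larger (`cov_num`).

Both dimensions do not change if `K_X + Δ` is replaced by `D` (`DV.transfer`).
-/

set_option autoImplicit false

open FF Filter IntermediateField Pool.Agent Pool.Agent.W602.GT Pool.Agent.Y172 Pool.Agent.Y191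
  Pool.Agent.Y174 Pool.Agent.R885

namespace Pool.Agent.Results.MP_1149f4_ag.NondegenerateDivisors

section

variable {L : Type} [Field L] [Algebra ℂ L]

/-- `x` is the generic point of a subvariety `X₀` of dimension `n`, with function field `L`, of the
set of common zeros of the `f l` in the torus `(ℂ^*) ^ r`, not contained in the sets `h j = 0`. -/
def IsGenericPoint {r q p : ℕ} (n : ℕ) (f : Fin q → (Fin r → ℤ) →₀ ℂ)
    (h : Fin p → (Fin r → ℤ) →₀ ℂ) (x : Fin r → L) : Prop :=
  (∀ i, x i ≠ 0) ∧ (∀ l, ev x (f l) = 0) ∧ (∀ j, ev x (h j) ≠ 0) ∧
    IntermediateField.adjoin ℂ (Set.range x) = ⊤ ∧ Algebra.trdeg ℂ L = (n : ℕ)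

/-- The pair is nondegenerate along the subvariety `X₀` of the torus with the generic point `x`: for
all subsets `V` and all integral vectors `v`, the logarithmic gradients of the initial parts of the
`f l` and of the `h j`, `j ∈ V`, are linearly independent at the points `c` of the initial
degeneration of `X₀` at which the initial parts of the `h j`, `j ∈ V`, vanish. -/
def Nondegenerate {r q p : ℕ} (f : Fin q → (Fin r → ℤ) →₀ ℂ) (h : Fin p → (Fin r → ℤ) →₀ ℂ)
    (x : Fin r → L) : Prop :=
  ∀ (V : Finset (Fin p)) (v : Fin r → ℤ) (c : Fin r → ℂ), (∀ i, c i ≠ 0) →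
    (∀ g : (Fin r → ℤ) →₀ ℂ, ev x g = 0 → ev c (ini v g) = 0) →
      (∀ j ∈ V, ev c (ini v (h j)) = 0) →
        LinearIndependent ℂ (Sum.elim (fun l => gr c (ini v (f l))) fun j : V => gr c (ini v (h j)))

/-- The function `A` on the integral vectors is a weight: on the nonzero vectors it is at least `0`,
at most `1`, with bounded denominators, `A (v + w) ≥ A v + A w - 1` and `A (g v) ≤ g A v`. -/
structure IsWeight {r : ℕ} (A : (Fin r → ℤ) → ℚ) : Prop where
  nonneg : ∀ v, v ≠ 0 → 0 ≤ A v
  le_one : ∀ v, A v ≤ 1
  denom : ∃ D : ℕ, 1 ≤ D ∧ ∀ v, ∃ z : ℤ, (D : ℚ) * A v = z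
  add : ∀ v w, v ≠ 0 → w ≠ 0 → v + w ≠ 0 → A v + A w - 1 ≤ A (v + w)
  smul : ∀ (g : ℤ) v, 0 < g → v ≠ 0 → A (g • v) ≤ g * A v

end

section

variable {K L : Type} [Field K] [Field L] [Algebra ℂ K] [Algebra ℂ L]

/-- `(X, Δ)` is a projective pair with function field `K` which is commensurable with the pair
`(X₀, Δ₀)` with function field `L`, where `b` gives the multiplicities of `Δ₀`: the pull-backs of
`K_X + Δ` and of `K_{X₀} + Δ₀` to the common finite extension `M` of `K` and `L` coincide. That is, if
the place `P'` of `M` lies over the prime divisor `P` of `X` and over the place `Q` of `L`, with the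
ramification indices `e` and `e'`, then `e (1 - Δ P) = e' (1 - b Q)`. Moreover, for all divisors `P`
over `X`, the log discrepancy of `(X, Δ)` along `P` is at least `e' (1 - b Q) / e`. -/
structure IsCommensurable (M : Type) [Field M] [Algebra ℂ M] [Algebra K M] [Algebra L M]
    (b : Place ℂ L → ℚ) {N : ℕ} (y : Fin (N + 1) → K) (n : ℕ) (Δ : Place ℂ K → ℚ) : Prop where
  normal : NormalModel y
  effective : Effective y Δ
  mult : ∀ P, IsPrimeDivisor y P → ∀ (P' : Place ℂ M) (Q : Place ℂ L) (e e' : ℕ),
    LiesOn P' P e → LiesOn P' Q e' → (e : ℚ) * (1 - Δ P) = e' * (1 - b Q)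
  disc : ∀ P, Divisorial n P → ∀ (P' : Place ℂ M) (Q : Place ℂ L) (e e' : ℕ),
    LiesOn P' P e → LiesOn P' Q e' → LogDisc y n Δ P (e' * (1 - b Q) / e)

end

section

variable {K : Type} [Field K] [Algebra ℂ K] {N : ℕ}

/-- `K_X` is pseudoeffective: for some effective divisor `A` there are arbitrarily large `m` such
that `m K_X + A` has a nonzero section. -/
def PseudoEffectiveK (y : Fin (N + 1) → K) (n : ℕ) : Prop :=
  ∃ A, Effective y A ∧ ∀ M : ℕ, ∃ m, M ≤ m ∧ h0 y n m A ≠ 0

/-- `D` is a `ℚ`-divisor on `X`: it has finitely many components. -/
def IsDivisor (y : Fin (N + 1) → K) (D : Place ℂ K → ℚ) : Prop :=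
  {P | IsPrimeDivisor y P ∧ D P ≠ 0}.Finite

/-- `D` is `ℚ`-linearly equivalent to a positive rational multiple of `K_X + Δ`:
`b D = div η + a Δ` for some integers `a, b ≥ 1` and some `a`-canonical form `η ≠ 0`. -/
def AdjointMultiple (y : Fin (N + 1) → K) (n : ℕ) (D Δ : Place ℂ K → ℚ) : Prop :=
  ∃ a b : ℕ, 1 ≤ a ∧ 1 ≤ b ∧ ∃ η : (Fin n → Derivation ℂ K K) → K, η ≠ 0 ∧ IsPluri a η ∧
    ∀ P, IsPrimeDivisor y P → OrdEq P η (b * D P - a * Δ P)

/-- The rational function `g` on `X` is zero or has `div g + D ≥ 0`. -/
def IsSection (y : Fin (N + 1) → K) (D : Place ℂ K → ℚ) (g : K) : Prop :=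
  ∀ P, IsPrimeDivisor y P → g = 0 ∨ -(D P) ≤ P.ord g

/-- `h⁰ (X, D)`: the dimension of the space of the rational functions `g` on `X` which are zero or
satisfy `div g + D ≥ 0`. -/
noncomputable def h0D (y : Fin (N + 1) → K) (D : Place ℂ K → ℚ) : ℕ :=
  Module.finrank ℂ (Submodule.span ℂ {g : K | IsSection y D g})

open scoped Classical in
/-- The Iitaka dimension of the `ℚ`-divisor `D`: it is `⊥` if `h⁰ (X, m D) = 0` for all `m ≥ 1` such
that `m D` is integral, and otherwise the largest `k` such that the upper limit of
`h⁰ (X, m D) / m ^ k` over these `m` is positive. -/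
noncomputable def iitakaDim (y : Fin (N + 1) → K) (D : Place ℂ K → ℚ) : WithBot ℕ :=
  if ∀ m : ℕ, 1 ≤ m → Integral y (m • D) → h0D y (m • D) = 0 then ⊥ else
    ((sSup {k : ℕ | 0 < limsup (fun m : ℕ => (h0D y (m • D) : ENNReal) / (m : ENNReal) ^ k)
      (atTop ⊓ 𝓟 {m : ℕ | 1 ≤ m ∧ Integral y (m • D)})} : ℕ) : WithBot ℕ)

/-- The numerical dimension of the `ℚ`-divisor `D` with respect to the divisor `A`: the upper limit
of `log h⁰ (X, m D + A) / log m` over the `m ≥ 1` such that `m D + A` is integral. -/
noncomputable def numDim (y : Fin (N + 1) → K) (D A : Place ℂ K → ℚ) : EReal :=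
  limsup (fun m : ℕ => ENNReal.log (h0D y (m • D + A) : ENNReal) / (Real.log m : EReal))
    (atTop ⊓ 𝓟 {m : ℕ | 1 ≤ m ∧ Integral y (m • D + A)})

end

/-- **Adjoint divisors.** Let `n ≥ 1`, let `f`, `h` be Laurent polynomials in `n + q` variables,
let `x` be the generic point of a component `X₀` of the set of common zeros of the `f l` in the
torus, with function field `L`, such that the pair is nondegenerate along `X₀`, let `A` be a weight
and `0 ≤ c j ≤ 1`, and let `Δ₀` be the boundary with the multiplicities `bdry A c x h`. Let `(X, Δ)` be a
projective pair with function field `K`, and let `M` be a finite extension of `K` and of `L` such that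
the pull-backs of `K_X + Δ` and of `K_{X₀} + Δ₀` to `M` coincide.
Let `K_X` be pseudoeffective, and let `D` be a `ℚ`-divisor on `X` which is `ℚ`-linearly equivalent to
a positive multiple of `K_X + Δ`. Then the Iitaka dimension and the numerical dimension of `D` are
equal, and they are at least `0`. -/
theorem result {n q p : ℕ} (hn : 1 ≤ n) {f : Fin q → (Fin (n + q) → ℤ) →₀ ℂ}
    {h : Fin p → (Fin (n + q) → ℤ) →₀ ℂ} {K L M : Type} [Field K] [Field L] [Field M]
    [Algebra ℂ K] [Algebra ℂ L] [Algebra ℂ M] [Algebra K M] [Algebra L M] [IsScalarTower ℂ K M]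
    [IsScalarTower ℂ L M] [FiniteDimensional K M] [FiniteDimensional L M] {x : Fin (n + q) → L}
    (hx : IsGenericPoint n f h x) (hfh : Nondegenerate f h x) {A : (Fin (n + q) → ℤ) → ℚ}
    (hA : IsWeight A) {c : Fin p → ℚ} (hc : ∀ j, 0 ≤ c j ∧ c j ≤ 1) {N : ℕ}
    {y : Fin (N + 1) → K} {Δ : Place ℂ K → ℚ} (hy : IsCommensurable M (bdry A c x h) y n Δ)
    (hK : PseudoEffectiveK y n) {D : Place ℂ K → ℚ} (hD : IsDivisor y D)
    (hDΔ : AdjointMultiple y n D Δ) :
    ∃ d : ℕ, d ≤ n ∧ iitakaDim y D = (d : WithBot ℕ) ∧
      ∀ A', Effective y A' → Integral y A' → numDim y D A' = (d : EReal) := by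
  obtain ⟨hq, hv⟩ := R885.N.qfinalY (M := M) hn hx.2.2.2.2 hx.1 hx.2.2.2.1 hx.2.1 hx.2.2.1 hfh
    ⟨hA.nonneg, hA.le_one, hA.denom, hA.add, hA.smul⟩ hc
    ⟨hy.normal, hy.effective, hy.mult, hy.disc⟩
  obtain ⟨htr, δ, hδ, hm, hdisc⟩ := hq
  exact R885.N.adjB htr (R885.N.pos_of_psef htr hδ hy.normal hy.effective hdisc hK) hy.normal hm
    hdisc hD hDΔ

end Pool.Agent.Results.MP_1149f4_ag.NondegenerateDivisors
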