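import Pool.Agent.R800.UA.Canon

/-!
# Generalised abundance for étale quotients of complex tori, with a uniform exponent

`IsTorusQuotient`, `LineBundle`, `LineBundle.pow` and `LineBundle.IsTrivial` are defined in
`Pool.Agent.W594.SYZ.Defs2`; `IsChernForm` and `IsNefForm` in `Pool.Agent.W594.SYZ.TQDefs`;
`BaseFree` in `Pool.Agent.R893.TQ.Semi`; `gl3 n` (the order of the general linear group of rank `2 n`
over the field with three elements) in `Pool.Agent.R800.UA.Rep`; `ActsFreely` and the canonical bundle
`canon` in `Pool.Agent.R800.UA.Canon`.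
-/

set_option autoImplicit false

namespace Pool.Agent.Results.MP_1149f4_ag.UniformNumerical

open Pool.Agent.W594.SYZ2 Pool.Agent.TH735.AQ Pool.Agent.R893.TQ Pool.Agent.R800.UA

/-- Let `X = V / Γ` be the quotient of a complex torus of dimension `n` by a finite group which acts
freely. Then the `gl3 n`-th power of the canonical bundle `K_X` is trivial, and for every nef line
bundle `L` on `X` with Chern form `H` there is a line bundle `M` on `X` which is generated by its global
sections and has the Chern form `m H`, where `m = 4 (gl3 n) ^ 3` depends only on `n`. In particular `L`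
is numerically equivalent to the semiample `ℚ`-divisor `M / m`. -/
theorem result : ∀ n : ℕ, 1 ≤ 4 * gl3 n ^ 3 ∧
    ∀ (V : Type*) [NormedAddCommGroup V] [NormedSpace ℂ V] [FiniteDimensional ℂ V]
      (Γ : Subgroup (V ≃ᵃ[ℂ] V)) (hfree : ActsFreely Γ), Module.finrank ℂ V = n →
      IsTorusQuotient Γ → ((canon Γ hfree).pow (gl3 n)).IsTrivial ∧
      ∀ (L : LineBundle Γ) (H : V → V → ℂ), IsChernForm L H → IsNefForm H →
        ∃ M : LineBundle Γ, IsChernForm M (fun v w => ((4 * gl3 n ^ 3 : ℕ) : ℂ) * H v w) ∧
          BaseFree M := by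
  intro n
  refine ⟨?_, fun V _ _ _ Γ hfree hd hΓ => ⟨canon_torsion hΓ hfree hd, fun L H hc hn =>
    numerical_uni hΓ hd hc hn⟩⟩
  have := gl3_pos n
  have h1 : 0 < 4 * gl3 n ^ 3 := by positivity
  exact h1

end Pool.Agent.Results.MP_1149f4_ag.UniformNumerical
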